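import Mathlib

set_option autoImplicit false
set_option linter.unusedSectionVars false

open Set Topology

universe u v w

namespace Pool.Agent.W637.CpcProd

/-- metacompactness, in the form used by the frozen statement -/
def MCpt (Z : Type w) [TopologicalSpace Z] : Prop :=
  ∀ 𝒰 : Set (Set Z), (∀ U ∈ 𝒰, IsOpen U) → ⋃₀ 𝒰 = Set.univ →
    ∃ 𝒱 : Set (Set Z), (∀ V ∈ 𝒱, IsOpen V) ∧ ⋃₀ 𝒱 = Set.univ ∧
      (∀ V ∈ 𝒱, ∃ U ∈ 𝒰, V ⊆ U) ∧ ∀ y : Z, {V | V ∈ 𝒱 ∧ y ∈ V}.Finite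

section cpc

variable {Y : Type u} [TopologicalSpace Y]

/-- a closure-preserving family of compact closed sets -/
structure Cpc (𝒞 : Set (Set Y)) : Prop where
  cpt : ∀ A ∈ 𝒞, IsCompact A ∧ IsClosed A
  cp : ∀ G ⊆ 𝒞, IsClosed (⋃₀ G)

/-- the upper set of `y` -/
def up (𝒞 : Set (Set Y)) (y : Y) : Set Y := ⋂₀ {C | C ∈ 𝒞 ∧ y ∈ C}

/-- the basic open neighbourhood of `y` -/
def M (𝒞 : Set (Set Y)) (y : Y) : Set Y := (⋃₀ {C | C ∈ 𝒞 ∧ y ∉ C})ᶜ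

/-- maximal elements of a set -/
def Mx (𝒞 : Set (Set Y)) (E : Set Y) : Set Y :=
  {m | m ∈ E ∧ ∀ y ∈ E, y ∈ up 𝒞 m → m ∈ up 𝒞 y}

variable {𝒞 : Set (Set Y)}

theorem mem_up_self (y : Y) : y ∈ up 𝒞 y := by
  intro C hC
  exact hC.2

theorem up_trans {a b c : Y} (h1 : b ∈ up 𝒞 a) (h2 : c ∈ up 𝒞 b) : c ∈ up 𝒞 a := by
  intro C hC
  exact h2 C ⟨hC.1, h1 C hC⟩

theorem up_sub {a b : Y} (h1 : b ∈ up 𝒞 a) : up 𝒞 b ⊆ up 𝒞 a := fun _ hc => up_trans h1 hc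

theorem M_open (h : Cpc 𝒞) (y : Y) : IsOpen (M 𝒞 y) := by
  apply IsClosed.isOpen_compl (self := ?_)
  exact h.cp _ (fun C hC => hC.1)

theorem mem_M_self (y : Y) : y ∈ M 𝒞 y := by
  rintro ⟨C, hC, hy⟩
  exact hC.2 hy

theorem mem_M_iff {w y : Y} : w ∈ M 𝒞 y ↔ y ∈ up 𝒞 w := by
  constructor
  · intro hw C hC
    by_contra hy
    exact hw ⟨C, ⟨hC.1, hy⟩, hC.2⟩
  · rintro hy ⟨C, hC, hw⟩
    exact hC.2 (hy C ⟨hC.1, hw⟩)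

theorem up_closed (h : Cpc 𝒞) (y : Y) : IsClosed (up 𝒞 y) :=
  isClosed_sInter fun C hC => (h.cpt C hC.1).2

theorem up_compact (h : Cpc 𝒞) {y : Y} (hy : y ∈ ⋃₀ 𝒞) : IsCompact (up 𝒞 y) := by
  obtain ⟨C, hC, hyC⟩ := hy
  exact (h.cpt C hC).1.of_isClosed_subset (up_closed h y) (sInter_subset_of_mem ⟨hC, hyC⟩)

/-- every element of a closed set is below a maximal one -/
theorem exists_max (h : Cpc 𝒞) {E : Set Y} (hE : IsClosed E) {z : Y} (hz : z ∈ ⋃₀ 𝒞)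
    (hzE : z ∈ E) : ∃ m ∈ Mx 𝒞 E, m ∈ up 𝒞 z := by
  let S : Set (Set Y) := {A | ∃ w ∈ up 𝒞 z ∩ E, A = up 𝒞 w ∩ E}
  have hzc := up_compact h hz
  have key : ∃ m, Minimal (· ∈ S) m := by
    apply zorn_superset
    intro c hcS hc
    by_cases hne : c.Nonempty
    · have hne' : (⋂₀ c).Nonempty := by
        have : Nonempty c := hne.to_subtype
        rw [sInter_eq_iInter]
        apply IsCompact.nonempty_iInter_of_directed_nonempty_isCompact_isClosed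
        · intro a b
          rcases hc.total a.2 b.2 with hab | hab
          · exact ⟨a, le_refl _, hab⟩
          · exact ⟨b, hab, le_refl _⟩
        · rintro ⟨A, hA⟩
          obtain ⟨w, hw, rfl⟩ := hcS hA
          exact ⟨w, mem_up_self w, hw.2⟩
        · rintro ⟨A, hA⟩
          obtain ⟨w, hw, rfl⟩ := hcS hA
          exact (hzc.of_isClosed_subset (up_closed h w) (up_sub hw.1)).inter_right hE
        · rintro ⟨A, hA⟩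
          obtain ⟨w, hw, rfl⟩ := hcS hA
          exact (up_closed h w).inter hE
      obtain ⟨v, hv⟩ := hne'
      have hvz : v ∈ up 𝒞 z ∩ E := by
        obtain ⟨A, hA⟩ := hne
        have := hv A hA
        obtain ⟨w, hw, rfl⟩ := hcS hA
        exact ⟨up_trans hw.1 this.1, this.2⟩
      refine ⟨up 𝒞 v ∩ E, ⟨v, hvz, rfl⟩, ?_⟩
      intro A hA
      have := hv A hA
      obtain ⟨w, hw, rfl⟩ := hcS hA
      exact inter_subset_inter_left _ (up_sub this.1)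
    · rw [not_nonempty_iff_eq_empty] at hne
      subst hne
      exact ⟨up 𝒞 z ∩ E, ⟨z, ⟨mem_up_self z, hzE⟩, rfl⟩, by simp⟩
  obtain ⟨A, ⟨m, hm, rfl⟩, hmin⟩ := key
  refine ⟨m, ⟨hm.2, ?_⟩, hm.1⟩
  intro y hyE hym
  have h1 : up 𝒞 y ∩ E ∈ S := ⟨y, ⟨up_trans hm.1 hym, hyE⟩, rfl⟩
  have h2 := hmin h1 (inter_subset_inter_left _ (up_sub hym))
  exact (h2 ⟨mem_up_self m, hm.2⟩).1

theorem Mx_sub (E : Set Y) : Mx 𝒞 E ⊆ E := fun _ h => h.1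

theorem M_inter_Mx {E : Set Y} {z w : Y} (hz : z ∈ E) (hw : w ∈ Mx 𝒞 E)
    (hwz : w ∈ M 𝒞 z) : z ∈ Mx 𝒞 E := by
  rw [mem_M_iff] at hwz
  have h1 : w ∈ up 𝒞 z := hw.2 z hz hwz
  refine ⟨hz, fun y hy hyz => ?_⟩
  exact up_trans (hw.2 y hy (up_trans hwz hyz)) hwz

theorem Mx_closed (h : Cpc 𝒞) {E : Set Y} (hE : IsClosed E) : IsClosed (Mx 𝒞 E) := by
  rw [← isOpen_compl_iff, isOpen_iff_mem_nhds]
  intro z hz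
  by_cases hzE : z ∈ E
  · filter_upwards [(M_open h z).mem_nhds (mem_M_self z)] with w hw hwM
    exact hz (M_inter_Mx hzE hwM hw)
  · filter_upwards [hE.isOpen_compl.mem_nhds hzE] with w hw hwM
    exact hw hwM.1

theorem reg_nbhd [T3Space Y] {O : Set Y} (hO : IsOpen O) {y : Y} (hy : y ∈ O) :
    ∃ W : Set Y, IsOpen W ∧ y ∈ W ∧ closure W ⊆ O := by
  obtain ⟨t, ht, htc, hts⟩ := exists_mem_nhds_isClosed_subset (hO.mem_nhds hy)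
  exact ⟨interior t, isOpen_interior, mem_interior_iff_mem_nhds.mpr ht,
    (closure_minimal interior_subset htc).trans hts⟩

/-- the set of maximal elements is locally compact -/
theorem Mx_local [T3Space Y] (h : Cpc 𝒞) {E : Set Y} (hE : IsClosed E) (hEF : E ⊆ ⋃₀ 𝒞) (y : Y) :
    ∃ W : Set Y, IsOpen W ∧ y ∈ W ∧ IsCompact (closure W ∩ Mx 𝒞 E) := by
  by_cases hy : y ∈ Mx 𝒞 E
  · obtain ⟨W, hW, hyW, hsub⟩ := reg_nbhd (M_open h y) (mem_M_self y)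
    refine ⟨W, hW, hyW, ?_⟩
    refine (up_compact h (hEF hy.1)).of_isClosed_subset (isClosed_closure.inter (Mx_closed h hE)) ?_
    rintro w ⟨hw, hwM⟩
    exact hwM.2 y hy.1 (mem_M_iff.mp (hsub hw))
  · obtain ⟨W, hW, hyW, hsub⟩ := reg_nbhd (Mx_closed h hE).isOpen_compl hy
    refine ⟨W, hW, hyW, ?_⟩
    have : closure W ∩ Mx 𝒞 E = ∅ := by
      ext w
      simp only [mem_inter_iff, mem_empty_iff_false, iff_false, not_and]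
      exact fun hw hwM => hsub hw hwM
    rw [this]
    exact isCompact_empty

/-- the descent relation at `y` -/
def R (𝒞 : Set (Set Y)) (y : Y) (E' E : Set Y) : Prop :=
  IsClosed E ∧ E ⊆ ⋃₀ 𝒞 ∧ IsClosed E' ∧ E' ⊆ E ∧ E' ∩ Mx 𝒞 E = ∅ ∧ (up 𝒞 y ∩ E').Nonempty

theorem R_wf (h : Cpc 𝒞) {y : Y} (hy : y ∈ ⋃₀ 𝒞) : WellFounded (R 𝒞 y) := by
  rw [wellFounded_iff_isEmpty_descending_chain]
  refine ⟨fun ⟨E, hE⟩ => ?_⟩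
  have hcl : ∀ n, IsClosed (E n) := fun n => (hE n).1
  have hsub : ∀ n, E n ⊆ ⋃₀ 𝒞 := fun n => (hE n).2.1
  have hdec : ∀ n, E (n + 1) ⊆ E n := fun n => (hE n).2.2.2.1
  have hdis : ∀ n, E (n + 1) ∩ Mx 𝒞 (E n) = ∅ := fun n => (hE n).2.2.2.2.1
  have hanti : Antitone E := antitone_nat_of_succ_le hdec
  have hne : ∀ n, (up 𝒞 y ∩ E n).Nonempty := by
    intro n
    have := (hE n).2.2.2.2.2
    exact this.mono (inter_subset_inter_right _ (hdec n))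
  have hyc := up_compact h hy
  have hcomp : ∀ n, IsCompact (up 𝒞 y ∩ E n) := fun n => hyc.inter_right (hcl n)
  have hanti' : Antitone fun n => up 𝒞 y ∩ E n := fun a b hab => inter_subset_inter_right _ (hanti hab)
  obtain ⟨z, hz⟩ : (⋂ n, up 𝒞 y ∩ E n).Nonempty :=
    IsCompact.nonempty_iInter_of_directed_nonempty_isCompact_isClosed _
      (directed_of_isDirected_le hanti') hne hcomp
      (fun n => (up_closed h y).inter (hcl n))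
  rw [mem_iInter] at hz
  -- the open set
  let A : Set Y := ⋂ n, up 𝒞 y ∩ E n
  let O : Set Y := ⋃ l ∈ A, M 𝒞 l
  have hOo : IsOpen O := isOpen_biUnion fun l _ => M_open h l
  have hAO : A ⊆ O := fun l hl => mem_biUnion hl (mem_M_self l)
  obtain ⟨n, hn⟩ : ∃ n, up 𝒞 y ∩ E n ⊆ O := by
    by_contra hcon
    push Not at hcon
    have h1 : ∀ n, ((up 𝒞 y ∩ E n) ∩ Oᶜ).Nonempty := by
      intro n
      obtain ⟨w, hw, hwO⟩ := not_subset.mp (hcon n)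
      exact ⟨w, hw, hwO⟩
    obtain ⟨w, hw⟩ : (⋂ n, (up 𝒞 y ∩ E n) ∩ Oᶜ).Nonempty :=
      IsCompact.nonempty_iInter_of_directed_nonempty_isCompact_isClosed _
        (directed_of_isDirected_le fun a b hab => inter_subset_inter_left _ (hanti' hab)) h1
        (fun n => (hcomp n).inter_right hOo.isClosed_compl)
        (fun n => ((up_closed h y).inter (hcl n)).inter hOo.isClosed_compl)
    rw [mem_iInter] at hw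
    exact (hw 0).2 (hAO (mem_iInter.mpr fun n => (hw n).1))
  obtain ⟨m, hm, hmz⟩ := exists_max h (hcl n) (hsub n (hz n).2) (hz n).2
  have hmO : m ∈ O := hn ⟨up_trans (hz n).1 hmz, hm.1⟩
  simp only [O, mem_iUnion] at hmO
  obtain ⟨l, hl, hml⟩ := hmO
  have hlE : ∀ n, l ∈ E n := fun n => (mem_iInter.mp hl n).2
  have hlM : l ∈ Mx 𝒞 (E n) := M_inter_Mx (hlE n) hm hml
  have : l ∈ E (n + 1) ∩ Mx 𝒞 (E n) := ⟨hlE _, hlM⟩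
  rw [hdis n] at this
  exact this

/-- the open set of points below `E` (together with the complement of `F`) -/
def P (𝒞 : Set (Set Y)) (E : Set Y) : Set Y := {y | y ∈ ⋃₀ 𝒞 ∧ up 𝒞 y ∩ E = ∅}ᶜ

theorem P_open (h : Cpc 𝒞) (E : Set Y) : IsOpen (P 𝒞 E) := by
  rw [P, isOpen_compl_iff]
  have : {y | y ∈ ⋃₀ 𝒞 ∧ up 𝒞 y ∩ E = ∅} = (⋃₀ 𝒞) ∩ ⋂ z ∈ E, ⋃₀ {C | C ∈ 𝒞 ∧ z ∉ C} := by
    ext y
    simp only [mem_ofPred_eq, mem_inter_iff, mem_iInter]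
    refine and_congr_right fun hy => ?_
    constructor
    · intro he z hz
      by_contra hcon
      have : y ∈ M 𝒞 z := hcon
      rw [mem_M_iff] at this
      have h2 : z ∈ up 𝒞 y ∩ E := ⟨this, hz⟩
      rw [he] at h2
      exact h2
    · intro hh
      ext z
      simp only [mem_inter_iff, mem_empty_iff_false, iff_false, not_and]
      intro hz hzE
      exact (mem_M_iff.mpr hz : y ∈ M 𝒞 z) (hh z hzE)
  rw [this]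
  refine (h.cp _ subset_rfl).inter (isClosed_biInter fun z _ => h.cp _ fun C hC => hC.1)

theorem mem_P_of_mem {E : Set Y} {y : Y} (hy : y ∈ E) : y ∈ P 𝒞 E := by
  rintro ⟨-, h2⟩
  have : y ∈ up 𝒞 y ∩ E := ⟨mem_up_self y, hy⟩
  rw [h2] at this
  exact this

theorem nonempty_of_mem_P {E : Set Y} {y : Y} (hy : y ∈ ⋃₀ 𝒞) (h : y ∈ P 𝒞 E) :
    (up 𝒞 y ∩ E).Nonempty := by
  rw [nonempty_iff_ne_empty]
  exact fun he => h ⟨hy, he⟩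

end cpc

section prod

variable {Y : Type u} {X : Type v} [TopologicalSpace Y] [TopologicalSpace X]

/-- covered by finitely many members -/
def Sm (𝒢 : Set (Set (Y × X))) (A : Set (Y × X)) : Prop :=
  ∃ s : Set (Set (Y × X)), s.Finite ∧ s ⊆ 𝒢 ∧ A ⊆ ⋃₀ s

theorem Sm.mono {𝒢 : Set (Set (Y × X))} {A B : Set (Y × X)} (h : Sm 𝒢 B) (hAB : A ⊆ B) : Sm 𝒢 A := by
  obtain ⟨s, h1, h2, h3⟩ := h
  exact ⟨s, h1, h2, hAB.trans h3⟩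

theorem tube {𝒢 : Set (Set (Y × X))} (hG : ∀ G ∈ 𝒢, IsOpen G) (hcov : ⋃₀ 𝒢 = univ) {K : Set Y}
    (hK : IsCompact K) (x : X) :
    ∃ U : Set Y, ∃ V : Set X, IsOpen U ∧ IsOpen V ∧ K ⊆ U ∧ x ∈ V ∧ Sm 𝒢 (U ×ˢ V) := by
  have hKx : IsCompact (K ×ˢ ({x} : Set X)) := hK.prod isCompact_singleton
  obtain ⟨s, hs1, hs2, hs3⟩ := hKx.elim_finite_subcover_image (b := 𝒢) (c := id) (fun G hG' => hG G hG')
    (by
      have : (⋃ i ∈ 𝒢, id i) = ⋃₀ 𝒢 := sUnion_eq_biUnion.symm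
      rw [this, hcov]; exact subset_univ _)
  have hop : IsOpen (⋃₀ s) := isOpen_sUnion fun G h => hG G (hs1 h)
  obtain ⟨U, V, hU, hV, hKU, hxV, hUV⟩ := generalized_tube_lemma hK (isCompact_singleton (x := x)) hop
    (by rw [sUnion_eq_biUnion]; exact hs3)
  exact ⟨U, V, hU, hV, hKU, hxV rfl, s, hs2, hs1, hUV⟩

theorem step_exists [T3Space Y] (hY : MCpt Y) (hX : MCpt X) {𝒞 : Set (Set Y)} (h : Cpc 𝒞)
    {𝒢 : Set (Set (Y × X))} (hG : ∀ G ∈ 𝒢, IsOpen G) (hcov : ⋃₀ 𝒢 = univ)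
    (E : Set Y) (hE : IsClosed E) (hEF : E ⊆ ⋃₀ 𝒞) :
    ∃ I : Set (Set Y × Set Y × Set X),
      (∀ t ∈ I, IsOpen t.1 ∧ IsOpen t.2.1 ∧ IsOpen t.2.2 ∧ closure t.1 ∩ Mx 𝒞 E ⊆ t.2.1 ∧
        Sm 𝒢 (t.2.1 ×ˢ t.2.2)) ∧
      (∀ p : Y × X, {t | t ∈ I ∧ p.1 ∈ t.1 ∧ p.2 ∈ t.2.2}.Finite) ∧
      (∀ p : Y × X, ∃ t ∈ I, p.1 ∈ t.1 ∧ p.2 ∈ t.2.2) := by
  classical
  obtain ⟨𝒩, hN1, hN2, hN3, hN4⟩ := hY {W | IsOpen W ∧ IsCompact (closure W ∩ Mx 𝒞 E)}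
    (fun W hW => hW.1) (by
      rw [sUnion_eq_univ_iff]
      intro y
      obtain ⟨W, hW, hyW, hc⟩ := Mx_local h hE hEF y
      exact ⟨W, ⟨hW, hc⟩, hyW⟩)
  have hKc : ∀ N ∈ 𝒩, IsCompact (closure N ∩ Mx 𝒞 E) := by
    intro N hN
    obtain ⟨W, ⟨hW, hc⟩, hNW⟩ := hN3 N hN
    exact hc.of_isClosed_subset (isClosed_closure.inter (Mx_closed h hE))
      (inter_subset_inter_left _ (closure_mono hNW))
  have hV : ∀ N : Set Y, ∃ 𝒱 : Set (Set X), N ∈ 𝒩 → (∀ V ∈ 𝒱, IsOpen V) ∧ ⋃₀ 𝒱 = Set.univ ∧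
      (∀ V ∈ 𝒱, ∃ U : Set Y, IsOpen U ∧ closure N ∩ Mx 𝒞 E ⊆ U ∧ Sm 𝒢 (U ×ˢ V)) ∧
      ∀ x : X, {V | V ∈ 𝒱 ∧ x ∈ V}.Finite := by
    intro N
    by_cases hN : N ∈ 𝒩
    · obtain ⟨𝒱, h1, h2, h3, h4⟩ := hX {V | IsOpen V ∧ ∃ U : Set Y, IsOpen U ∧
        closure N ∩ Mx 𝒞 E ⊆ U ∧ Sm 𝒢 (U ×ˢ V)} (fun V hV => hV.1) (by
          rw [sUnion_eq_univ_iff]
          intro x
          obtain ⟨U, V, hU, hV, hKU, hxV, hS⟩ := tube hG hcov (hKc N hN) x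
          exact ⟨V, ⟨hV, U, hU, hKU, hS⟩, hxV⟩)
      refine ⟨𝒱, fun _ => ⟨h1, h2, ?_, h4⟩⟩
      intro V hV
      obtain ⟨V', ⟨hV', U, hU, hKU, hS⟩, hVV'⟩ := h3 V hV
      exact ⟨U, hU, hKU, hS.mono (prod_mono subset_rfl hVV')⟩
    · exact ⟨∅, fun h => absurd h hN⟩
  choose 𝒱 h𝒱 using hV
  have hU : ∀ (N : Set Y) (V : Set X), ∃ U : Set Y, N ∈ 𝒩 → V ∈ 𝒱 N → IsOpen U ∧
      closure N ∩ Mx 𝒞 E ⊆ U ∧ Sm 𝒢 (U ×ˢ V) := by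
    intro N V
    by_cases hN : N ∈ 𝒩
    · by_cases hV : V ∈ 𝒱 N
      · obtain ⟨U, hU⟩ := (h𝒱 N hN).2.2.1 V hV
        exact ⟨U, fun _ _ => hU⟩
      · exact ⟨∅, fun _ h => absurd h hV⟩
    · exact ⟨∅, fun h => absurd h hN⟩
  choose Uf hUf using hU
  refine ⟨{t | t.1 ∈ 𝒩 ∧ t.2.2 ∈ 𝒱 t.1 ∧ t.2.1 = Uf t.1 t.2.2}, ?_, ?_, ?_⟩
  · rintro ⟨N, U, V⟩ ⟨hN, hV, hUU⟩
    simp only at hN hV hUU
    subst hUU
    obtain ⟨h1, h2, h3⟩ := hUf N V hN hV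
    exact ⟨hN1 N hN, h1, (h𝒱 N hN).1 V hV, h2, h3⟩
  · intro p
    have hfin : (⋃ N ∈ {N | N ∈ 𝒩 ∧ p.1 ∈ N}, (fun V => (N, Uf N V, V)) '' {V | V ∈ 𝒱 N ∧ p.2 ∈ V}).Finite := by
      apply (hN4 p.1).biUnion
      intro N hN
      exact ((h𝒱 N hN.1).2.2.2 p.2).image _
    refine hfin.subset ?_
    rintro ⟨N, U, V⟩ ⟨⟨hN, hV, hUU⟩, hp1, hp2⟩
    simp only at hN hV hUU hp1 hp2
    subst hUU
    simp only [mem_iUnion]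
    exact ⟨N, ⟨hN, hp1⟩, V, ⟨hV, hp2⟩, rfl⟩
  · intro p
    obtain ⟨N, hN, hpN⟩ : ∃ N ∈ 𝒩, p.1 ∈ N := by
      have := mem_univ p.1
      rw [← hN2] at this
      exact this
    obtain ⟨V, hV, hpV⟩ : ∃ V ∈ 𝒱 N, p.2 ∈ V := by
      have := mem_univ p.2
      rw [← (h𝒱 N hN).2.1] at this
      exact this
    exact ⟨(N, Uf N V, V), ⟨hN, hV, rfl⟩, hpN, hpV⟩

/-- the data of all steps for one closed-preserving family -/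
structure Steps (𝒞 : Set (Set Y)) (𝒢 : Set (Set (Y × X))) (I : Set Y → Set (Set Y × Set Y × Set X)) : Prop where
  op : ∀ E, IsClosed E → E ⊆ ⋃₀ 𝒞 → ∀ t ∈ I E, IsOpen t.1 ∧ IsOpen t.2.1 ∧ IsOpen t.2.2 ∧
    closure t.1 ∩ Mx 𝒞 E ⊆ t.2.1 ∧ Sm 𝒢 (t.2.1 ×ˢ t.2.2)
  fin : ∀ E, IsClosed E → E ⊆ ⋃₀ 𝒞 → ∀ p : Y × X, {t | t ∈ I E ∧ p.1 ∈ t.1 ∧ p.2 ∈ t.2.2}.Finite
  cov : ∀ E, IsClosed E → E ⊆ ⋃₀ 𝒞 → ∀ p : Y × X, ∃ t ∈ I E, p.1 ∈ t.1 ∧ p.2 ∈ t.2.2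

theorem steps_exists [T3Space Y] (hY : MCpt Y) (hX : MCpt X) {𝒞 : Set (Set Y)} (h : Cpc 𝒞)
    {𝒢 : Set (Set (Y × X))} (hG : ∀ G ∈ 𝒢, IsOpen G) (hcov : ⋃₀ 𝒢 = univ) :
    ∃ I, Steps 𝒞 𝒢 I := by
  have : ∀ E : Set Y, ∃ I : Set (Set Y × Set Y × Set X), IsClosed E → E ⊆ ⋃₀ 𝒞 →
      (∀ t ∈ I, IsOpen t.1 ∧ IsOpen t.2.1 ∧ IsOpen t.2.2 ∧ closure t.1 ∩ Mx 𝒞 E ⊆ t.2.1 ∧
        Sm 𝒢 (t.2.1 ×ˢ t.2.2)) ∧
      (∀ p : Y × X, {t | t ∈ I ∧ p.1 ∈ t.1 ∧ p.2 ∈ t.2.2}.Finite) ∧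
      (∀ p : Y × X, ∃ t ∈ I, p.1 ∈ t.1 ∧ p.2 ∈ t.2.2) := by
    intro E
    by_cases h1 : IsClosed E ∧ E ⊆ ⋃₀ 𝒞
    · obtain ⟨I, hI⟩ := step_exists hY hX h hG hcov E h1.1 h1.2
      exact ⟨I, fun _ _ => hI⟩
    · exact ⟨∅, fun a b => absurd ⟨a, b⟩ h1⟩
  choose I hI using this
  exact ⟨I, fun E a b => (hI E a b).1, fun E a b => (hI E a b).2.1, fun E a b => (hI E a b).2.2⟩

/-- child node -/
def child (ν : Set (Y × X) × Set Y) (t : Set Y × Set Y × Set X) : Set (Y × X) × Set Y :=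
  (ν.1 ∩ (t.1 ×ˢ t.2.2), (ν.2 ∩ closure t.1) \ t.2.1)

/-- the open set covered at a node -/
def cv (ν : Set (Y × X) × Set Y) (t : Set Y × Set Y × Set X) : Set (Y × X) :=
  ν.1 ∩ ((t.1 ∩ t.2.1) ×ˢ t.2.2)

/-- levels of the tree -/
def Lv (𝒞 : Set (Set Y)) (I : Set Y → Set (Set Y × Set Y × Set X)) : ℕ → Set (Set (Y × X) × Set Y)
  | 0 => {(univ, ⋃₀ 𝒞)}
  | (k + 1) => {ν' | ∃ ν ∈ Lv 𝒞 I k, ∃ t ∈ I ν.2, ν' = child ν t}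

variable {𝒞 : Set (Set Y)} {𝒢 : Set (Set (Y × X))} {I : Set Y → Set (Set Y × Set Y × Set X)}

theorem lv_good (h : Cpc 𝒞) (hI : Steps 𝒞 𝒢 I) (k : ℕ) : ∀ ν ∈ Lv 𝒞 I k, IsOpen ν.1 ∧ IsClosed ν.2 ∧ ν.2 ⊆ ⋃₀ 𝒞 := by
  induction k with
  | zero =>
    rintro ν rfl
    exact ⟨isOpen_univ, h.cp _ subset_rfl, subset_rfl⟩
  | succ k ih =>
    rintro ν' ⟨ν, hν, t, ht, rfl⟩
    obtain ⟨h1, h2, h3⟩ := ih ν hν
    obtain ⟨o1, o2, o3, -, -⟩ := hI.op ν.2 h2 h3 t ht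
    refine ⟨h1.inter (o1.prod o3), (h2.inter isClosed_closure).sdiff o2, ?_⟩
    exact (sdiff_subset.trans inter_subset_left).trans h3

theorem lv_fin (h : Cpc 𝒞) (hI : Steps 𝒞 𝒢 I) (p : Y × X) (k : ℕ) :
    {ν | ν ∈ Lv 𝒞 I k ∧ p ∈ ν.1}.Finite := by
  induction k with
  | zero => exact (finite_singleton _).subset fun ν hν => hν.1
  | succ k ih =>
    have hfin : (⋃ ν ∈ {ν | ν ∈ Lv 𝒞 I k ∧ p ∈ ν.1},
        (child ν) '' {t | t ∈ I ν.2 ∧ p.1 ∈ t.1 ∧ p.2 ∈ t.2.2}).Finite := by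
      apply ih.biUnion
      intro ν hν
      obtain ⟨h1, h2, h3⟩ := lv_good h hI k ν hν.1
      exact (hI.fin ν.2 h2 h3 p).image _
    refine hfin.subset ?_
    rintro ν' ⟨⟨ν, hν, t, ht, rfl⟩, hp⟩
    simp only [mem_iUnion]
    exact ⟨ν, ⟨hν, hp.1⟩, t, ⟨ht, hp.2.1, hp.2.2⟩, rfl⟩

/-- the family of level `k` -/
def Uk (𝒞 : Set (Set Y)) (I : Set Y → Set (Set Y × Set Y × Set X)) (k : ℕ) : Set (Set (Y × X)) :=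
  {W | ∃ ν ∈ Lv 𝒞 I k, ∃ t ∈ I ν.2, W = cv ν t}

theorem Uk_fin (h : Cpc 𝒞) (hI : Steps 𝒞 𝒢 I) (p : Y × X) (k : ℕ) : {W | W ∈ Uk 𝒞 I k ∧ p ∈ W}.Finite := by
  have hfin : (⋃ ν ∈ {ν | ν ∈ Lv 𝒞 I k ∧ p ∈ ν.1},
      (cv ν) '' {t | t ∈ I ν.2 ∧ p.1 ∈ t.1 ∧ p.2 ∈ t.2.2}).Finite := by
    apply (lv_fin h hI p k).biUnion
    intro ν hν
    obtain ⟨h1, h2, h3⟩ := lv_good h hI k ν hν.1
    exact (hI.fin ν.2 h2 h3 p).image _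
  refine hfin.subset ?_
  rintro W ⟨⟨ν, hν, t, ht, rfl⟩, hp⟩
  simp only [mem_iUnion]
  exact ⟨ν, ⟨hν, hp.1⟩, t, ⟨ht, hp.2.1.1, hp.2.2⟩, rfl⟩

theorem cv_open (h : Cpc 𝒞) (hI : Steps 𝒞 𝒢 I) {k : ℕ} {ν : Set (Y × X) × Set Y}
    {t : Set Y × Set Y × Set X} (hν : ν ∈ Lv 𝒞 I k) (ht : t ∈ I ν.2) : IsOpen (cv ν t) := by
  obtain ⟨h1, h2, h3⟩ := lv_good h hI k ν hν
  obtain ⟨o1, o2, o3, -, -⟩ := hI.op ν.2 h2 h3 t ht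
  exact h1.inter ((o1.inter o2).prod o3)

theorem cv_small (h : Cpc 𝒞) (hI : Steps 𝒞 𝒢 I) {k : ℕ} {ν : Set (Y × X) × Set Y}
    {t : Set Y × Set Y × Set X} (hν : ν ∈ Lv 𝒞 I k) (ht : t ∈ I ν.2) : Sm 𝒢 (cv ν t) := by
  obtain ⟨h1, h2, h3⟩ := lv_good h hI k ν hν
  obtain ⟨o1, o2, o3, -, o5⟩ := hI.op ν.2 h2 h3 t ht
  exact o5.mono (inter_subset_right.trans (prod_mono inter_subset_right subset_rfl))

/-- the key descent: children are in the relation `R` -/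
theorem child_R (hI : Steps 𝒞 𝒢 I) {ν : Set (Y × X) × Set Y} (h2 : IsClosed ν.2)
    (h3 : ν.2 ⊆ ⋃₀ 𝒞) {t : Set Y × Set Y × Set X} (ht : t ∈ I ν.2) {y : Y}
    (hne : (up 𝒞 y ∩ (child ν t).2).Nonempty) : R 𝒞 y (child ν t).2 ν.2 := by
  obtain ⟨o1, o2, o3, o4, -⟩ := hI.op ν.2 h2 h3 t ht
  refine ⟨h2, h3, (h2.inter isClosed_closure).sdiff o2, sdiff_subset.trans inter_subset_left, ?_, hne⟩
  ext z
  simp only [mem_inter_iff, mem_empty_iff_false, iff_false, not_and]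
  rintro ⟨⟨-, hz1⟩, hz2⟩ hz3
  exact hz2 (o4 ⟨hz1, hz3⟩)

/-- every point of `F × X` is covered -/
theorem covered (h : Cpc 𝒞) (hI : Steps 𝒞 𝒢 I) {p : Y × X} (hp : p.1 ∈ ⋃₀ 𝒞) :
    ∃ k, ∃ ν ∈ Lv 𝒞 I k, ∃ t ∈ I ν.2, p ∈ cv ν t ∧ p.1 ∈ ν.2 := by
  suffices H : ∀ E : Set Y, ∀ k, ∀ ν ∈ Lv 𝒞 I k, ν.2 = E → p ∈ ν.1 → p.1 ∈ ν.2 →
      ∃ k, ∃ ν ∈ Lv 𝒞 I k, ∃ t ∈ I ν.2, p ∈ cv ν t ∧ p.1 ∈ ν.2 from
    H _ 0 _ (rfl : _ ∈ Lv 𝒞 I 0) rfl (mem_univ _) hp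
  intro E
  induction E using (R_wf h hp).induction with
  | _ E ih =>
    intro k ν hν hE hp1 hp2
    obtain ⟨h1, h2, h3⟩ := lv_good h hI k ν hν
    obtain ⟨t, ht, ht1, ht2⟩ := hI.cov ν.2 h2 h3 p
    by_cases hU : p.1 ∈ t.2.1
    · exact ⟨k, ν, hν, t, ht, ⟨hp1, ⟨ht1, hU⟩, ht2⟩, hp2⟩
    · have hm : p.1 ∈ (child ν t).2 := ⟨⟨hp2, subset_closure ht1⟩, hU⟩
      have hR : R 𝒞 p.1 (child ν t).2 ν.2 := child_R hI h2 h3 ht ⟨p.1, mem_up_self _, hm⟩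
      rw [hE] at hR
      exact ih _ hR (k + 1) (child ν t) ⟨ν, hν, t, ht, rfl⟩ rfl ⟨hp1, ht1, ht2⟩ hm

/-- the step relation at a point -/
def St (𝒞 : Set (Set Y)) (I : Set Y → Set (Set Y × Set Y × Set X)) (p : Y × X)
    (ν ν' : Set (Y × X) × Set Y) : Prop :=
  ∃ t ∈ I ν.2, ν' = child ν t ∧ p ∈ ν'.1 ∧ (up 𝒞 p.1 ∩ ν'.2).Nonempty

theorem desc_fin (h : Cpc 𝒞) (hI : Steps 𝒞 𝒢 I) {p : Y × X} (hp : p.1 ∈ ⋃₀ 𝒞) :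
    ∀ E : Set Y, ∀ ν : Set (Y × X) × Set Y, ν.2 = E → IsClosed ν.2 → ν.2 ⊆ ⋃₀ 𝒞 →
      {ν' | Relation.ReflTransGen (St 𝒞 I p) ν ν'}.Finite := by
  intro E
  induction E using (R_wf h hp).induction with
  | _ E ih =>
    intro ν hE h2 h3
    have hfin : ({ν} ∪ ⋃ t ∈ {t | t ∈ I ν.2 ∧ p.1 ∈ t.1 ∧ p.2 ∈ t.2.2 ∧ (up 𝒞 p.1 ∩ (child ν t).2).Nonempty},
        {ν' | Relation.ReflTransGen (St 𝒞 I p) (child ν t) ν'}).Finite := by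
      refine (finite_singleton _).union (Finite.biUnion ?_ ?_)
      · exact (hI.fin ν.2 h2 h3 p).subset fun t ht => ⟨ht.1, ht.2.1, ht.2.2.1⟩
      · rintro t ⟨ht, ht1, ht2, hne⟩
        have hR := child_R hI h2 h3 ht hne
        have hR' := hR
        rw [hE] at hR
        exact ih _ hR (child ν t) rfl hR'.2.2.1 (hR'.2.2.2.1.trans h3)
    refine hfin.subset ?_
    intro ν' hν'
    rcases hν'.cases_head with rfl | ⟨ν1, ⟨t, ht, rfl, hp1, hne⟩, h5⟩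
    · exact Or.inl rfl
    · refine Or.inr ?_
      simp only [mem_iUnion]
      exact ⟨t, ⟨ht, hp1.2.1, hp1.2.2, hne⟩, h5⟩

theorem reach {p : Y × X} (k : ℕ) : ∀ ν ∈ Lv 𝒞 I k, p ∈ ν.1 →
    (up 𝒞 p.1 ∩ ν.2).Nonempty → Relation.ReflTransGen (St 𝒞 I p) (univ, ⋃₀ 𝒞) ν := by
  induction k with
  | zero =>
    rintro ν rfl _ _
    exact Relation.ReflTransGen.refl
  | succ k ih =>
    rintro ν' ⟨ν, hν, t, ht, rfl⟩ hp hne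
    refine (ih ν hν hp.1 (hne.mono (inter_subset_inter_right _ (sdiff_subset.trans inter_subset_left)))).tail ?_
    exact ⟨t, ht, rfl, hp, hne⟩

/-- the family that is point-finite on `F × X` -/
def Vf (𝒞 : Set (Set Y)) (I : Set Y → Set (Set Y × Set Y × Set X)) : Set (Set (Y × X)) :=
  {W | ∃ k, ∃ ν ∈ Lv 𝒞 I k, ∃ t ∈ I ν.2, W = cv ν t ∩ (P 𝒞 ν.2 ×ˢ univ)}

theorem Vf_fin (h : Cpc 𝒞) (hI : Steps 𝒞 𝒢 I) {p : Y × X} (hp : p.1 ∈ ⋃₀ 𝒞) :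
    {W | W ∈ Vf 𝒞 I ∧ p ∈ W}.Finite := by
  have hD : {ν | (∃ k, ν ∈ Lv 𝒞 I k) ∧ p ∈ ν.1 ∧ (up 𝒞 p.1 ∩ ν.2).Nonempty}.Finite := by
    refine (desc_fin h hI hp (⋃₀ 𝒞) (univ, ⋃₀ 𝒞) rfl (h.cp _ subset_rfl) subset_rfl).subset ?_
    rintro ν ⟨⟨k, hk⟩, h1, h2⟩
    exact reach k ν hk h1 h2
  have hfin : (⋃ ν ∈ {ν | (∃ k, ν ∈ Lv 𝒞 I k) ∧ p ∈ ν.1 ∧ (up 𝒞 p.1 ∩ ν.2).Nonempty},
      (fun t => cv ν t ∩ (P 𝒞 ν.2 ×ˢ univ)) '' {t | t ∈ I ν.2 ∧ p.1 ∈ t.1 ∧ p.2 ∈ t.2.2}).Finite := by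
    apply hD.biUnion
    rintro ν ⟨⟨k, hk⟩, -, -⟩
    obtain ⟨h1, h2, h3⟩ := lv_good h hI k ν hk
    exact (hI.fin ν.2 h2 h3 p).image _
  refine hfin.subset ?_
  rintro W ⟨⟨k, ν, hν, t, ht, rfl⟩, hpW⟩
  simp only [mem_iUnion]
  refine ⟨ν, ⟨⟨k, hν⟩, hpW.1.1, nonempty_of_mem_P hp hpW.2.1⟩, t, ⟨ht, hpW.1.2.1.1, hpW.1.2.2⟩, rfl⟩

/-- both conclusions for one closure-preserving family -/
theorem both [T3Space Y] (hY : MCpt Y) (hX : MCpt X) (h : Cpc 𝒞)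
    (hG : ∀ G ∈ 𝒢, IsOpen G) (hcov : ⋃₀ 𝒢 = univ) :
    (∃ 𝒰 : ℕ → Set (Set (Y × X)), (∀ k, ∀ W ∈ 𝒰 k, IsOpen W ∧ Sm 𝒢 W) ∧
      (∀ k p, {W | W ∈ 𝒰 k ∧ p ∈ W}.Finite) ∧ (∀ p : Y × X, p.1 ∈ ⋃₀ 𝒞 → ∃ k, ∃ W ∈ 𝒰 k, p ∈ W)) ∧
    (∃ 𝒱 : Set (Set (Y × X)), (∀ W ∈ 𝒱, IsOpen W ∧ Sm 𝒢 W) ∧
      (∀ p : Y × X, p.1 ∈ ⋃₀ 𝒞 → {W | W ∈ 𝒱 ∧ p ∈ W}.Finite) ∧
      (∀ p : Y × X, p.1 ∈ ⋃₀ 𝒞 → ∃ W ∈ 𝒱, p ∈ W)) := by
  obtain ⟨I, hI⟩ := steps_exists hY hX h hG hcov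
  constructor
  · refine ⟨Uk 𝒞 I, ?_, fun k p => Uk_fin h hI p k, ?_⟩
    · rintro k W ⟨ν, hν, t, ht, rfl⟩
      exact ⟨cv_open h hI hν ht, cv_small h hI hν ht⟩
    · intro p hp
      obtain ⟨k, ν, hν, t, ht, hpc, -⟩ := covered h hI hp
      exact ⟨k, _, ⟨ν, hν, t, ht, rfl⟩, hpc⟩
  · refine ⟨Vf 𝒞 I, ?_, fun p hp => Vf_fin h hI hp, ?_⟩
    · rintro W ⟨k, ν, hν, t, ht, rfl⟩
      exact ⟨(cv_open h hI hν ht).inter ((P_open h _).prod isOpen_univ),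
        (cv_small h hI hν ht).mono inter_subset_left⟩
    · intro p hp
      obtain ⟨k, ν, hν, t, ht, hpc, hpE⟩ := covered h hI hp
      exact ⟨_, ⟨k, ν, hν, t, ht, rfl⟩, hpc, mem_P_of_mem hpE, mem_univ _⟩

/-- closed shrinkings for an increasing open cover on `F × X` -/
theorem shrink [T3Space Y] (hY : MCpt Y) (hX : MCpt X) (h : Cpc 𝒞) (G : ℕ → Set (Y × X))
    (hG : ∀ n, IsOpen (G n)) (hmono : Monotone G) (hcov : ⋃ n, G n = univ) :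
    ∃ H : ℕ → Set (Y × X), (∀ n, IsClosed (H n)) ∧ (∀ n, H n ⊆ G n) ∧
      ∀ p : Y × X, p.1 ∈ ⋃₀ 𝒞 → ∃ n, p ∈ H n := by
  obtain ⟨-, 𝒱, hV1, hV2, hV3⟩ := both (𝒢 := range G) hY hX h (by rintro _ ⟨n, rfl⟩; exact hG n)
    (by rw [sUnion_range]; exact hcov)
  have hS : ∀ W ∈ 𝒱, ∃ n, W ⊆ G n := by
    intro W hW
    obtain ⟨s, hs1, hs2, hs3⟩ := (hV1 W hW).2
    have : ∀ A ∈ s, ∃ n, G n = A := fun A hA => hs2 hA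
    choose! f hf using this
    obtain ⟨N, hN⟩ := (hs1.image f).bddAbove
    refine ⟨N, hs3.trans ?_⟩
    rintro q ⟨A, hA, hq⟩
    rw [← hf A hA] at hq
    exact hmono (hN (mem_image_of_mem f hA)) hq
  refine ⟨fun n => (⋃₀ 𝒞) ×ˢ univ ∩ (⋃₀ {W | W ∈ 𝒱 ∧ ¬ W ⊆ G n})ᶜ, ?_, ?_, ?_⟩
  · intro n
    refine ((h.cp _ subset_rfl).prod isClosed_univ).inter ?_
    rw [isClosed_compl_iff]
    exact isOpen_sUnion fun W hW => (hV1 W hW.1).1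
  · rintro n p ⟨hp1, hp2⟩
    obtain ⟨W, hW, hpW⟩ := hV3 p hp1.1
    by_contra hcon
    exact hp2 ⟨W, ⟨hW, fun hsub => hcon (hsub hpW)⟩, hpW⟩
  · intro p hp
    choose! f hf using hS
    obtain ⟨N, hN⟩ := ((hV2 p hp).image f).bddAbove
    refine ⟨N, ⟨hp, mem_univ _⟩, ?_⟩
    rintro ⟨W, ⟨hW, hnot⟩, hpW⟩
    exact hnot ((hf W hW).trans (hmono (hN (mem_image_of_mem f ⟨hW, hpW⟩))))

theorem main [T3Space Y] (hY : MCpt Y) (hX : MCpt X) (F : ℕ → Set (Set Y)) (hF : ∀ n, Cpc (F n))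
    (hFc : (⋃ n, ⋃₀ F n) = univ) : MCpt (Y × X) := by
  classical
  intro 𝒢 hG hcov
  have hb := fun n => (both hY hX (hF n) hG hcov).1
  choose 𝒰 hU1 hU2 hU3 using hb
  let e : ℕ ≃ ℕ × ℕ := Nat.pairEquiv.symm
  let 𝒲 : ℕ → Set (Set (Y × X)) := fun i => 𝒰 (e i).1 (e i).2
  let G : ℕ → Set (Y × X) := fun i => ⋃ j ∈ Iic i, ⋃₀ 𝒲 j
  have hGo : ∀ i, IsOpen (G i) := fun i => isOpen_biUnion fun j _ =>
    isOpen_sUnion fun W hW => (hU1 _ _ W hW).1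
  have hGm : Monotone G := fun i j hij => biUnion_subset_biUnion_left (Iic_subset_Iic.mpr hij)
  have hW : ∀ p : Y × X, ∃ i, ∃ W ∈ 𝒲 i, p ∈ W := by
    intro p
    have : p.1 ∈ ⋃ n, ⋃₀ F n := by rw [hFc]; exact mem_univ _
    rw [mem_iUnion] at this
    obtain ⟨n, hn⟩ := this
    obtain ⟨k, W, hW, hpW⟩ := hU3 n p hn
    refine ⟨e.symm (n, k), W, ?_, hpW⟩
    simp only [𝒲, Equiv.apply_symm_apply]
    exact hW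
  have hGc : ⋃ n, G n = univ := by
    rw [eq_univ_iff_forall]
    intro p
    obtain ⟨i, W, hW, hpW⟩ := hW p
    rw [mem_iUnion]
    exact ⟨i, mem_biUnion (mem_Iic.mpr le_rfl) ⟨W, hW, hpW⟩⟩
  have hs := fun n => shrink hY hX (hF n) G hGo hGm hGc
  choose H hH1 hH2 hH3 using hs
  -- closed sets
  let K : ℕ → Set (Y × X) := fun i => ⋃ a ∈ Iic i, ⋃ b ∈ Iic i, H a b
  have hKc : ∀ i, IsClosed (K i) := fun i =>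
    (finite_Iic i).isClosed_biUnion fun a _ => (finite_Iic i).isClosed_biUnion fun b _ => hH1 a b
  have hKG : ∀ i, K i ⊆ G i := by
    intro i p hp
    simp only [K, mem_iUnion] at hp
    obtain ⟨a, ha, b, hb, hp⟩ := hp
    exact hGm (mem_Iic.mp hb) (hH2 a b hp)
  have hKm : Monotone K := fun i j hij => by
    intro p hp
    simp only [K, mem_iUnion] at hp ⊢
    obtain ⟨a, ha, b, hb, hp⟩ := hp
    exact ⟨a, le_trans ha hij, b, le_trans hb hij, hp⟩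
  have hKu : ∀ p, ∃ i, p ∈ K i := by
    intro p
    have : p.1 ∈ ⋃ n, ⋃₀ F n := by rw [hFc]; exact mem_univ _
    rw [mem_iUnion] at this
    obtain ⟨n, hn⟩ := this
    obtain ⟨m, hm⟩ := hH3 n p hn
    refine ⟨max n m, ?_⟩
    simp only [K, mem_iUnion]
    exact ⟨n, mem_Iic.mpr (le_max_left _ _), m, mem_Iic.mpr (le_max_right _ _), hm⟩
  -- the remaining sets
  let K' : ℕ → Set (Y × X) := fun i => ⋃ j ∈ Iio i, K j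
  have hK'c : ∀ i, IsClosed (K' i) := fun i => (finite_Iio i).isClosed_biUnion fun a _ => hKc a
  let 𝒬 : Set (Set (Y × X)) := {Q | ∃ i, ∃ W ∈ 𝒲 i, Q = W \ K' i}
  have hQo : ∀ Q ∈ 𝒬, IsOpen Q := by
    rintro Q ⟨i, W, hW, rfl⟩
    exact (hU1 _ _ W hW).1.sdiff (hK'c i)
  have hQs : ∀ Q ∈ 𝒬, Sm 𝒢 Q := by
    rintro Q ⟨i, W, hW, rfl⟩
    exact (hU1 _ _ W hW).2.mono sdiff_subset
  have hQc : ∀ p, ∃ Q ∈ 𝒬, p ∈ Q := by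
    intro p
    have hex := hW p
    let i := Nat.find hex
    obtain ⟨W, hWi, hpW⟩ : ∃ W ∈ 𝒲 i, p ∈ W := Nat.find_spec hex
    refine ⟨W \ K' i, ⟨i, W, hWi, rfl⟩, hpW, ?_⟩
    intro hp
    simp only [K', mem_iUnion] at hp
    obtain ⟨j, hj, hp⟩ := hp
    have hp' := hKG j hp
    simp only [G, mem_iUnion] at hp'
    obtain ⟨l, hl, W', hW', hpW'⟩ := hp'
    exact Nat.find_min hex (lt_of_le_of_lt hl hj) ⟨W', hW', hpW'⟩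
  have hQf : ∀ p, {Q | Q ∈ 𝒬 ∧ p ∈ Q}.Finite := by
    intro p
    obtain ⟨i, hi⟩ := hKu p
    have hfin : (⋃ j ∈ Iic i, (fun W => W \ K' j) '' {W | W ∈ 𝒲 j ∧ p ∈ W}).Finite := by
      apply (finite_Iic i).biUnion
      intro j _
      exact (hU2 _ _ p).image _
    refine hfin.subset ?_
    rintro Q ⟨⟨j, W, hW, rfl⟩, hpW, hpK⟩
    have hji : j ≤ i := by
      by_contra hcon
      push Not at hcon
      exact hpK (mem_biUnion (mem_Iio.mpr hcon) hi)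
    simp only [mem_iUnion]
    exact ⟨j, mem_Iic.mpr hji, W, ⟨hW, hpW⟩, rfl⟩
  choose! s hs1 hs2 hs3 using hQs
  refine ⟨{V | ∃ Q ∈ 𝒬, ∃ A ∈ s Q, V = Q ∩ A}, ?_, ?_, ?_, ?_⟩
  · rintro V ⟨Q, hQ, A, hA, rfl⟩
    exact (hQo Q hQ).inter (hG A (hs2 Q hQ hA))
  · rw [sUnion_eq_univ_iff]
    intro p
    obtain ⟨Q, hQ, hpQ⟩ := hQc p
    obtain ⟨A, hA, hpA⟩ := hs3 Q hQ hpQ
    exact ⟨_, ⟨Q, hQ, A, hA, rfl⟩, hpQ, hpA⟩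
  · rintro V ⟨Q, hQ, A, hA, rfl⟩
    exact ⟨A, hs2 Q hQ hA, inter_subset_right⟩
  · intro p
    have hfin : (⋃ Q ∈ {Q | Q ∈ 𝒬 ∧ p ∈ Q}, (fun A => Q ∩ A) '' (s Q)).Finite := by
      apply (hQf p).biUnion
      intro Q hQ
      exact (hs1 Q hQ.1).image _
    refine hfin.subset ?_
    rintro V ⟨⟨Q, hQ, A, hA, rfl⟩, hpQ, hpA⟩
    simp only [mem_iUnion]
    exact ⟨Q, ⟨hQ, hpQ⟩, A, hA, rfl⟩

end prod

end Pool.Agent.W637.CpcProd
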