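import Mathlib

set_option autoImplicit false

/-!
# A compact linearly ordered space without the Blumberg property, in ZFC

Let `S` be a stationary subset of `ω₁` whose complement is stationary.  The nodes of the tree are
the closed subsets of `S` with a greatest element, ordered by end-extension; the tree has no
uncountable chain and is `ω`-distributive.  Order the nodes lexicographically and let `K` be the
complete linear order of all initial segments of the set of nodes.  A cut `x ∈ K` splits the cones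
of the nodes of a countable chain only; let `α x` be a bound for the greatest elements of these
nodes, and `f x = r (α x)` with an injective map `r` from `ω₁` to the reals.  If `f` is continuous
on a dense set `D` then by distributivity some cone decides countably many open sets which
determine `f` on `D`, so `α` is constant on the part of `D` in this cone, which is impossible.
-/

namespace Pool.Agent.W637.Blum

open Cardinal Set

/-- The well-ordered set of the countable ordinals. -/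
abbrev Om : Type := (ℵ₁ : Cardinal.{0}).ord.ToType

theorem countable_Iio (a : Om) : (Set.Iio a).Countable := by
  have h1 : #(Set.Iio a) < Order.succ ℵ₀ := by
    rw [Cardinal.succ_aleph0]
    have h := Cardinal.mk_Iio_lt a (by simp)
    have h2 : #Om = ℵ₁ := by simp
    exact h.trans_eq h2
  have h2 : #(Set.Iio a) ≤ ℵ₀ := Order.lt_succ_iff.1 h1
  exact (Cardinal.le_aleph0_iff_set_countable).1 h2

theorem mk_Om : #Om = ℵ₁ := by simp

instance : Nonempty Om := by
  have : #Om ≠ 0 := by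
    rw [mk_Om]; exact (Cardinal.aleph_pos 1).ne'
  exact Cardinal.mk_ne_zero_iff.1 this

theorem countable_Iic (a : Om) : (Set.Iic a).Countable := by
  rw [← Set.Iio_union_right]
  exact (countable_Iio a).union (Set.countable_singleton a)

theorem exists_bound {s : Set Om} (hs : s.Countable) : ∃ a, ∀ b ∈ s, b < a := by
  by_contra h
  push Not at h
  have h1 : (Set.univ : Set Om) ⊆ ⋃ b ∈ s, Set.Iic b := by
    intro a _
    obtain ⟨b, hb, hab⟩ := h a
    exact Set.mem_biUnion hb hab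
  have h2 : (Set.univ : Set Om).Countable :=
    (hs.biUnion fun b _ => countable_Iic b).mono h1
  have h3 : #Om ≤ ℵ₀ := by
    rw [← Cardinal.mk_univ]
    exact (Cardinal.le_aleph0_iff_set_countable).2 h2
  rw [mk_Om] at h3
  exact absurd h3 (not_le.2 Cardinal.aleph0_lt_aleph_one)

theorem exists_gt' (a : Om) : ∃ b, a < b := by
  obtain ⟨b, hb⟩ := exists_bound (Set.countable_singleton a)
  exact ⟨b, hb a rfl⟩

/-- `δ` is closed under `g`. -/
def ClosedUnder (g : Om → Om) (δ : Om) : Prop := (∃ ε, ε < δ) ∧ ∀ ε < δ, g ε < δ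

theorem exists_closed (g : Om → Om) (b : Om) : ∃ δ, b < δ ∧ ClosedUnder g δ := by
  have h : ∀ a : Om, ∃ c : Om, a < c ∧ ∀ ε ≤ a, g ε < c := by
    intro a
    obtain ⟨c, hc⟩ := exists_bound (s := insert a (g '' Set.Iic a))
      (((countable_Iic a).image g).insert a)
    exact ⟨c, hc a (Set.mem_insert _ _), fun ε hε =>
      hc _ (Set.mem_insert_of_mem _ ⟨ε, hε, rfl⟩)⟩
  choose F hF1 hF2 using h
  let d : ℕ → Om := fun n => F^[n] b
  have hd : ∀ n, d (n + 1) = F (d n) := fun n => Function.iterate_succ_apply' F n b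
  have hne : {a : Om | ∀ n, d n < a}.Nonempty := by
    obtain ⟨a, ha⟩ := exists_bound (Set.countable_range d)
    exact ⟨a, fun n => ha _ ⟨n, rfl⟩⟩
  let δ := WellFounded.min (wellFounded_lt (α := Om)) _ hne
  have h1 : ∀ n, d n < δ := WellFounded.min_mem (wellFounded_lt (α := Om)) _ hne
  have h2 : ∀ ε < δ, ∃ n, ε ≤ d n := by
    intro ε hε
    by_contra hc
    push Not at hc
    exact WellFounded.not_lt_min (wellFounded_lt (α := Om)) (s := {a : Om | ∀ n, d n < a}) hc hε
  refine ⟨δ, h1 0, ⟨b, h1 0⟩, fun ε hε => ?_⟩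
  obtain ⟨n, hn⟩ := h2 ε hε
  refine (hF2 (d n) ε hn).trans ?_
  rw [← hd]
  exact h1 (n + 1)

/-- `S` is stationary. -/
def Stat (S : Set Om) : Prop := ∀ g : Om → Om, ∃ δ ∈ S, ClosedUnder g δ

theorem exists_inj : ∃ e : Om → ℕ → Bool, Function.Injective e := by
  have h : #Om ≤ #(ℕ → Bool) := by
    rw [mk_Om]
    simpa using Cardinal.aleph_one_le_continuum
  obtain ⟨f⟩ := Cardinal.le_def _ _ |>.1 h
  exact ⟨f, f.injective⟩

theorem exists_split : ∃ S : Set Om, Stat S ∧ Stat Sᶜ := by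
  by_contra hcon
  push Not at hcon
  obtain ⟨e, he⟩ := exists_inj
  have h1 : ∀ n : ℕ, ∃ (v : Bool) (g : Om → Om), ∀ δ, ClosedUnder g δ → e δ n = v := by
    intro n
    by_cases h : Stat {a | e a n = true}
    · have h2 := hcon _ h
      unfold Stat at h2
      push Not at h2
      obtain ⟨g, hg⟩ := h2
      refine ⟨true, g, fun δ hδ => ?_⟩
      by_contra hne
      exact hg δ hne hδ
    · unfold Stat at h
      push Not at h
      obtain ⟨g, hg⟩ := h
      refine ⟨false, g, fun δ hδ => ?_⟩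
      by_contra hne
      exact hg δ (by simpa using hne) hδ
  choose v g hg using h1
  have h2 : ∀ ε : Om, ∃ b : Om, ∀ n, g n ε < b := by
    intro ε
    obtain ⟨b, hb⟩ := exists_bound (Set.countable_range fun n => g n ε)
    exact ⟨b, fun n => hb _ ⟨n, rfl⟩⟩
  choose G hG using h2
  have h3 : ∀ δ, ClosedUnder G δ → e δ = v := by
    intro δ hδ
    funext n
    exact hg n δ ⟨hδ.1, fun ε hε => (hG ε n).trans (hδ.2 ε hε)⟩
  obtain ⟨δ, hδ0, hδ⟩ := exists_closed G (Classical.arbitrary Om)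
  obtain ⟨δ', hδ'0, hδ'⟩ := exists_closed G δ
  exact hδ'0.ne (he ((h3 δ hδ).trans (h3 δ' hδ').symm))

/-- A node of the tree: a nonempty closed subset of `S` with a greatest element. -/
structure Node (S : Set Om) where
  carrier : Set Om
  top : Om
  top_mem : top ∈ carrier
  le_top : ∀ a ∈ carrier, a ≤ top
  sub : carrier ⊆ S
  closed : ∀ a, (∃ b, b < a) → (∀ b < a, ∃ c ∈ carrier, b < c ∧ c < a) → a ∈ carrier

namespace Node

variable {S : Set Om}

theorem ext' {t s : Node S} (h : t.carrier = s.carrier) : t = s := by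
  have h1 : t.top = s.top :=
    le_antisymm (s.le_top _ (h ▸ t.top_mem)) (t.le_top _ (h ▸ s.top_mem))
  cases t; cases s
  simp only at h h1
  subst h; subst h1
  rfl

noncomputable def code (t : Node S) : Lex (Om → Prop) := toLex fun a => a ∈ t.carrier

theorem code_inj : Function.Injective (code (S := S)) := by
  intro t s h
  apply ext'
  ext a
  have h1 : (toLex (fun a => a ∈ t.carrier) : Lex (Om → Prop)) a =
      (toLex (fun a => a ∈ s.carrier) : Lex (Om → Prop)) a := congrFun h a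
  exact iff_of_eq h1

noncomputable instance : LinearOrder (Node S) := LinearOrder.lift' code code_inj

theorem lt_iff {t s : Node S} : t < s ↔
    ∃ a, (∀ b < a, b ∈ t.carrier ↔ b ∈ s.carrier) ∧ a ∉ t.carrier ∧ a ∈ s.carrier := by
  have h : t < s ↔ code t < code s := Iff.rfl
  rw [h]
  constructor
  · rintro ⟨a, h1, h2⟩
    have h2' : (a ∈ t.carrier) < (a ∈ s.carrier) := h2
    rw [lt_iff_le_not_ge] at h2'
    refine ⟨a, fun b hb => iff_of_eq (h1 b hb), ?_, ?_⟩
    · intro h3; exact h2'.2 (fun _ => h3)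
    · by_contra h3; exact h2'.2 (fun h4 => absurd h4 h3)
  · rintro ⟨a, h1, h2, h3⟩
    refine ⟨a, fun b hb => propext (h1 b hb), ?_⟩
    show (a ∈ t.carrier) < (a ∈ s.carrier)
    rw [lt_iff_le_not_ge]
    exact ⟨fun h4 => absurd h4 h2, fun h4 => h2 (h4 h3)⟩

/-- `s` end-extends `t`. -/
def Ext (t s : Node S) : Prop := ∀ a ≤ t.top, (a ∈ s.carrier ↔ a ∈ t.carrier)

theorem Ext.refl (t : Node S) : Ext t t := fun _ _ => Iff.rfl

theorem Ext.top_mem {t s : Node S} (h : Ext t s) : t.top ∈ s.carrier := (h _ le_rfl).2 t.top_mem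

theorem Ext.top_le {t s : Node S} (h : Ext t s) : t.top ≤ s.top := s.le_top _ h.top_mem

theorem Ext.trans {t s u : Node S} (h : Ext t s) (h' : Ext s u) : Ext t u :=
  fun a ha => (h' a (ha.trans h.top_le)).trans (h a ha)

theorem Ext.le {t s : Node S} (h : Ext t s) : t ≤ s := by
  by_contra hc
  rw [not_le, lt_iff] at hc
  obtain ⟨a, h1, h2, h3⟩ := hc
  exact h2 ((h a (t.le_top a h3)).2 h3)

theorem Ext.convex {t a b c : Node S} (ha : Ext t a) (hb : Ext t b) (hac : a ≤ c) (hcb : c ≤ b) :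
    Ext t c := by
  intro e
  induction e using WellFoundedLT.induction with
  | _ e ih =>
    intro he
    have hbelow : ∀ b' < e, (b' ∈ c.carrier ↔ b' ∈ t.carrier) := fun b' hb' =>
      ih b' hb' (hb'.le.trans he)
    constructor
    · intro h1
      by_contra h2
      apply not_lt.2 hcb
      rw [lt_iff]
      refine ⟨e, fun b' hb' => ?_, ?_, h1⟩
      · rw [hbelow b' hb', hb b' (hb'.le.trans he)]
      · rwa [hb e he]
    · intro h1
      by_contra h2
      apply not_lt.2 hac
      rw [lt_iff]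
      refine ⟨e, fun b' hb' => ?_, h2, ?_⟩
      · rw [hbelow b' hb', ha b' (hb'.le.trans he)]
      · rwa [ha e he]

/-- adding one point on top -/
def push (t : Node S) (β : Om) (hβ : β ∈ S) (h : t.top < β) : Node S where
  carrier := insert β t.carrier
  top := β
  top_mem := Set.mem_insert _ _
  le_top := by
    rintro a (rfl | ha)
    · exact le_rfl
    · exact (t.le_top a ha).trans h.le
  sub := Set.insert_subset hβ t.sub
  closed := by
    intro a ha1 ha2
    rcases lt_trichotomy a β with h1 | h1 | h1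
    · right
      apply t.closed a ha1
      intro b hb
      obtain ⟨c, hc, hbc, hca⟩ := ha2 b hb
      rcases hc with rfl | hc
      · exact absurd hca (not_lt.2 h1.le)
      · exact ⟨c, hc, hbc, hca⟩
    · left; exact h1
    · obtain ⟨c, hc, hbc, hca⟩ := ha2 β h1
      rcases hc with rfl | hc
      · exact absurd hbc (lt_irrefl _)
      · exact absurd hbc (not_lt.2 ((t.le_top c hc).trans h.le))

theorem ext_push (t : Node S) (β : Om) (hβ : β ∈ S) (h : t.top < β) :
    Ext t (t.push β hβ h) := by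
  intro a ha
  constructor
  · rintro (rfl | h1)
    · exact absurd ha (not_le.2 h)
    · exact h1
  · intro h1; exact Or.inr h1

theorem unbounded (hS : Stat S) (a : Om) : ∃ β ∈ S, a < β := by
  obtain ⟨δ, hδ, ⟨ε, hε⟩, h⟩ := hS (fun _ => a)
  exact ⟨δ, hδ, h ε hε⟩

theorem exists_ext (hS : Stat S) (t : Node S) (a : Om) :
    ∃ s, Ext t s ∧ a ≤ s.top ∧ t.top < s.top := by
  obtain ⟨β, hβ, h⟩ := unbounded hS (max a t.top)
  exact ⟨t.push β hβ ((le_max_right _ _).trans_lt h), ext_push _ _ _ _,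
    ((le_max_left _ _).trans_lt h).le, (le_max_right _ _).trans_lt h⟩

/-- between any two nodes there is a cone -/
theorem exists_cone (hS : Stat S) {a b : Node S} (h : a < b) :
    ∃ t : Node S, ∀ s, Ext t s → a ≤ s ∧ s ≤ b := by
  rw [lt_iff] at h
  obtain ⟨β, h1, h2, h3⟩ := h
  by_cases hcase : β < a.top
  · refine ⟨a, fun s hs => ⟨hs.le, ?_⟩⟩
    apply le_of_lt
    rw [lt_iff]
    refine ⟨β, fun b' hb' => ?_, ?_, h3⟩
    · rw [hs b' (hb'.le.trans hcase.le), h1 b' hb']
    · rwa [hs β hcase.le]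
  · have hlt : a.top < β := by
      rcases lt_trichotomy β a.top with h4 | h4 | h4
      · exact absurd h4 hcase
      · exact absurd a.top_mem (h4 ▸ h2)
      · exact h4
    obtain ⟨β', hβ', h5⟩ := unbounded hS β
    refine ⟨a.push β' hβ' (hlt.trans h5), fun s hs => ⟨?_, ?_⟩⟩
    · exact ((ext_push a β' hβ' (hlt.trans h5)).trans hs).le
    · apply le_of_lt
      rw [lt_iff]
      have h6 : ∀ b' ≤ β, (b' ∈ s.carrier ↔ b' ∈ a.carrier) := by
        intro b' hb'
        rw [hs b' (hb'.trans h5.le)]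
        constructor
        · rintro (rfl | h7)
          · exact absurd hb' (not_le.2 h5)
          · exact h7
        · intro h7; exact Or.inr h7
      refine ⟨β, fun b' hb' => ?_, ?_, h3⟩
      · rw [h6 b' hb'.le, h1 b' hb']
      · rwa [h6 β le_rfl]

/-- the limit of a sequence of nodes -/
def lim (t : ℕ → Node S) (ht : ∀ n, Ext (t n) (t (n + 1))) (δ : Om) (hδ : δ ∈ S)
    (h1 : ∀ n, (t n).top < δ) (h2 : ∀ b < δ, ∃ n, b ≤ (t n).top) : Node S where
  carrier := insert δ (⋃ n, (t n).carrier)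
  top := δ
  top_mem := Set.mem_insert _ _
  le_top := by
    rintro a (rfl | ha)
    · exact le_rfl
    · obtain ⟨n, hn⟩ := Set.mem_iUnion.1 ha
      exact ((t n).le_top a hn).trans (h1 n).le
  sub := Set.insert_subset hδ (Set.iUnion_subset fun n => (t n).sub)
  closed := by
    intro a ha1 ha2
    rcases lt_trichotomy a δ with h3 | h3 | h3
    · right
      obtain ⟨n, hn⟩ := h2 a h3
      refine Set.mem_iUnion.2 ⟨n, (t n).closed a ha1 fun b hb => ?_⟩
      obtain ⟨c, hc, hbc, hca⟩ := ha2 b hb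
      refine ⟨c, ?_, hbc, hca⟩
      rcases hc with rfl | hc
      · exact absurd hca (not_lt.2 h3.le)
      · obtain ⟨m, hm⟩ := Set.mem_iUnion.1 hc
        have hmono : ∀ i j, i ≤ j → Ext (t i) (t j) := by
          intro i j hij
          induction hij with
          | refl => exact Ext.refl _
          | step _ ih => exact ih.trans (ht _)
        rcases le_total m n with h4 | h4
        · exact (hmono m n h4 c ((t m).le_top c hm)).2 hm
        · exact (hmono n m h4 c (hca.le.trans hn)).1 hm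
    · left; exact h3
    · obtain ⟨c, hc, hbc, hca⟩ := ha2 δ h3
      rcases hc with rfl | hc
      · exact absurd hbc (lt_irrefl _)
      · obtain ⟨m, hm⟩ := Set.mem_iUnion.1 hc
        exact absurd hbc (not_lt.2 (((t m).le_top c hm).trans (h1 m).le))

theorem ext_lim (t : ℕ → Node S) (ht : ∀ n, Ext (t n) (t (n + 1))) (δ : Om) (hδ : δ ∈ S)
    (h1 : ∀ n, (t n).top < δ) (h2 : ∀ b < δ, ∃ n, b ≤ (t n).top) (n : ℕ) :
    Ext (t n) (lim t ht δ hδ h1 h2) := by
  intro a ha
  have hmono : ∀ i j, i ≤ j → Ext (t i) (t j) := by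
    intro i j hij
    induction hij with
    | refl => exact Ext.refl _
    | step _ ih => exact ih.trans (ht _)
  constructor
  · rintro (rfl | h3)
    · exact absurd ha (not_le.2 (h1 n))
    · obtain ⟨m, hm⟩ := Set.mem_iUnion.1 h3
      rcases le_total m n with h4 | h4
      · exact (hmono m n h4 a ((t m).le_top a hm)).2 hm
      · exact (hmono n m h4 a ha).1 hm
  · intro h3; exact Or.inr (Set.mem_iUnion.2 ⟨n, h3⟩)

/-- The tree is `ω`-distributive. -/
theorem distributive (hS : Stat S) (D : ℕ → Set (Node S))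
    (hdense : ∀ n t, ∃ s, Ext t s ∧ s ∈ D n)
    (hopen : ∀ n t s, t ∈ D n → Ext t s → s ∈ D n) (t₀ : Node S) :
    ∃ u, Ext t₀ u ∧ ∀ n, u ∈ D n := by
  have h0 : ∀ (n : ℕ) (t : Node S) (β : Om), ∃ s, Ext t s ∧ s ∈ D n ∧ β ≤ s.top := by
    intro n t β
    obtain ⟨s, hs1, hs2⟩ := hdense n t
    obtain ⟨u, hu1, hu2, _⟩ := exists_ext hS s β
    exact ⟨u, hs1.trans hu1, hopen n s u hs2 hu1, hu2⟩
  choose F hF1 hF2 hF3 using h0
  let N : List (ℕ × Om) → Node S := fun l => l.foldr (fun p t => F p.1 t p.2) t₀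
  have hN : ∀ p l, N (p :: l) = F p.1 (N l) p.2 := fun _ _ => rfl
  have hg : ∀ ε : Om, ∃ b : Om, ε < b ∧ ∀ l : List (ℕ × Om), (∀ p ∈ l, p.2 ≤ ε) → (N l).top < b := by
    intro ε
    have hc : (Set.Iic ε).Countable := countable_Iic ε
    have := hc.to_subtype
    let φ : List (ℕ × Set.Iic ε) → Om := fun l =>
      (N (l.map fun p => (p.1, (p.2 : Om)))).top
    obtain ⟨b, hb⟩ := exists_bound (s := insert ε (Set.range φ)) ((Set.countable_range φ).insert ε)
    refine ⟨b, hb _ (Set.mem_insert _ _), fun l hl => ?_⟩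
    apply hb
    right
    refine ⟨l.attach.map fun p => (p.1.1, ⟨p.1.2, hl p.1 p.2⟩), ?_⟩
    show (N ((l.attach.map fun p => (p.1.1, (⟨p.1.2, hl p.1 p.2⟩ : Set.Iic ε))).map
      fun p => (p.1, (p.2 : Om)))).top = (N l).top
    congr 2
    rw [List.map_map]
    conv_rhs => rw [← List.attach_map_subtype_val l]
    rfl
  choose g hg1 hg2 using hg
  obtain ⟨δ, hδS, hδ0, hδ⟩ := hS g
  have hcount := (countable_Iio δ)
  obtain ⟨e, he⟩ := hcount.exists_eq_range (by obtain ⟨ε, hε⟩ := hδ0; exact ⟨ε, hε⟩)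
  have he1 : ∀ n, e n < δ := fun n => by
    have : e n ∈ Set.Iio δ := by rw [he]; exact ⟨n, rfl⟩
    exact this
  let L : ℕ → List (ℕ × Om) := fun n => Nat.rec [] (fun k l => (k, e k) :: l) n
  have hL : ∀ n, L (n + 1) = (n, e n) :: L n := fun _ => rfl
  have hL1 : ∀ n, ∃ ε < δ, ∀ p ∈ L n, p.2 ≤ ε := by
    intro n
    induction n with
    | zero =>
      obtain ⟨ε, hε⟩ := hδ0
      exact ⟨ε, hε, fun p hp => by simp [L] at hp⟩
    | succ n ih =>
      obtain ⟨ε, hε, h⟩ := ih
      refine ⟨max ε (e n), max_lt hε (he1 n), fun p hp => ?_⟩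
      rw [hL] at hp
      rcases List.mem_cons.1 hp with rfl | hp
      · exact le_max_right _ _
      · exact (h p hp).trans (le_max_left _ _)
  let t : ℕ → Node S := fun n => N (L n)
  have ht0 : t 0 = t₀ := rfl
  have ht : ∀ n, t (n + 1) = F n (t n) (e n) := fun n => rfl
  have ht1 : ∀ n, Ext (t n) (t (n + 1)) := fun n => by rw [ht]; exact hF1 _ _ _
  have ht2 : ∀ n, (t n).top < δ := by
    intro n
    obtain ⟨ε, hε, h⟩ := hL1 n
    exact (hg2 ε _ h).trans (hδ ε hε)
  have ht3 : ∀ b < δ, ∃ n, b ≤ (t n).top := by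
    intro b hb
    have : b ∈ Set.range e := by rw [← he]; exact hb
    obtain ⟨n, rfl⟩ := this
    exact ⟨n + 1, by rw [ht]; exact hF3 _ _ _⟩
  refine ⟨lim t ht1 δ hδS ht2 ht3, ?_, fun n => ?_⟩
  · exact ht0 ▸ ext_lim t ht1 δ hδS ht2 ht3 0
  · refine hopen n (t (n + 1)) _ ?_ (ext_lim t ht1 δ hδS ht2 ht3 (n + 1))
    rw [ht]; exact hF2 _ _ _

end Node

section Cuts

open Topology

variable {S : Set Om}

/-- The completion of the set of nodes: the linearly ordered set of its initial segments. -/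
abbrev Cut (S : Set Om) : Type := LowerSet (Node S)

theorem mem_iff_lt (x : Cut S) (a : Node S) : a ∈ x ↔ LowerSet.Iio a < x := by
  constructor
  · intro h
    refine lt_of_le_of_ne ?_ ?_
    · intro b hb
      exact x.lower (le_of_lt hb) h
    · intro h1
      rw [← h1] at h
      exact lt_irrefl a h
  · intro h
    obtain ⟨c, hc, hc2⟩ := Set.not_subset.1 (not_le_of_gt h)
    exact x.lower (not_lt.1 hc2) hc

theorem notMem_iff_lt (x : Cut S) (b : Node S) : b ∉ x ↔ x < LowerSet.Iic b := by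
  constructor
  · intro h
    refine lt_of_le_of_ne ?_ ?_
    · intro c hc
      by_contra h1
      exact h (x.lower (le_of_lt (not_le.1 h1)) hc)
    · intro h1
      rw [h1] at h
      exact h (le_refl b)
  · intro h h1
    apply not_le_of_gt h
    intro c hc
    exact x.lower hc h1

/-- the open set of the cuts which split the cone of `t` -/
def O (t : Node S) : Set (Cut S) :=
  {x | (∃ a, Node.Ext t a ∧ a ∈ x) ∧ ∃ b, Node.Ext t b ∧ b ∉ x}

theorem isOpen_O [TopologicalSpace (Cut S)] [OrderTopology (Cut S)] (t : Node S) :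
    IsOpen (O t) := by
  have h : O t = (⋃ a ∈ {a | Node.Ext t a}, Set.Ioi (LowerSet.Iio a : Cut S)) ∩
      ⋃ b ∈ {b | Node.Ext t b}, Set.Iio (LowerSet.Iic b : Cut S) := by
    ext x
    simp only [O, Set.mem_ofPred_eq, Set.mem_inter_iff, Set.mem_iUnion, Set.mem_Ioi, Set.mem_Iio,
      exists_prop, mem_iff_lt, ← notMem_iff_lt]
  rw [h]
  exact (isOpen_biUnion fun _ _ => isOpen_Ioi).inter (isOpen_biUnion fun _ _ => isOpen_Iio)

theorem O_mono {t s : Node S} (h : Node.Ext t s) : O s ⊆ O t := by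
  rintro x ⟨⟨a, ha, hax⟩, b, hb, hbx⟩
  exact ⟨⟨a, h.trans ha, hax⟩, b, h.trans hb, hbx⟩

theorem O_nonempty (hS : Stat S) (t : Node S) : (O t).Nonempty := by
  obtain ⟨s, hs, _, hts⟩ := Node.exists_ext hS t t.top
  refine ⟨LowerSet.Iic t, ⟨t, Node.Ext.refl t, le_refl t⟩, s, hs, ?_⟩
  intro h
  have h1 : s ≤ t := h
  have h2 : t = s := le_antisymm hs.le h1
  rw [h2] at hts
  exact lt_irrefl _ hts

/-- every nonempty open set inside `O t` contains some `O s` with `s` an extension of `t` -/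
theorem exists_O_subset [TopologicalSpace (Cut S)] [OrderTopology (Cut S)] (hS : Stat S)
    (t : Node S) (W : Set (Cut S)) (hW : IsOpen W) (hne : (O t ∩ W).Nonempty) :
    ∃ s, Node.Ext t s ∧ O s ⊆ W := by
  obtain ⟨x, hxt, hxW⟩ := hne
  obtain ⟨⟨a₀, ha₀, ha₀x⟩, b₀, hb₀, hb₀x⟩ := id hxt
  have hnh : O t ∩ W ∈ 𝓝 x := ((isOpen_O t).inter hW).mem_nhds ⟨hxt, hxW⟩
  rw [mem_nhds_iff_exists_Ioo_subset' ⟨LowerSet.Iio a₀, (mem_iff_lt x a₀).1 ha₀x⟩
    ⟨LowerSet.Iic b₀, (notMem_iff_lt x b₀).1 hb₀x⟩] at hnh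
  obtain ⟨l, u, hx, hsub⟩ := hnh
  obtain ⟨a, hax, hal⟩ := Set.not_subset.1 (not_le_of_gt hx.1)
  obtain ⟨b, hbu, hbx⟩ := Set.not_subset.1 (not_le_of_gt hx.2)
  have hab : a < b := by
    by_contra h
    exact hbx (x.lower (not_lt.1 h) hax)
  have key : ∀ y : Cut S, a ∈ y → b ∉ y → y ∈ O t ∩ W := by
    intro y hay hby
    apply hsub
    constructor
    · by_contra h
      exact hal (not_lt.1 h hay)
    · by_contra h
      exact hby (not_lt.1 h hbu)
  obtain ⟨s, hs⟩ := Node.exists_cone hS hab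
  have has := hs s (Node.Ext.refl s)
  refine ⟨s, ?_, ?_⟩
  · have h1 := (key (LowerSet.Iic a) (le_refl a) (not_le.2 hab)).1
    have h2 := (key (LowerSet.Iio b) hab (lt_irrefl b)).1
    obtain ⟨⟨c, hc, hca⟩, _⟩ := h1
    obtain ⟨_, c', hc', hbc'⟩ := h2
    have hca' : c ≤ a := hca
    have hbc'' : b ≤ c' := not_lt.1 hbc'
    exact Node.Ext.convex hc hc' (hca'.trans has.1) (has.2.trans hbc'')
  · rintro y ⟨⟨c, hc, hcy⟩, c', hc', hc'y⟩
    exact (key y (y.lower (hs c hc).1 hcy) fun h => hc'y (y.lower (hs c' hc').2 h)).2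

theorem ext_of_mem {x : Cut S} {t s : Node S} (ht : x ∈ O t) (hs : x ∈ O s) (h : t.top ≤ s.top) :
    Node.Ext t s := by
  obtain ⟨⟨c, hc, hcx⟩, c', hc', hc'x⟩ := ht
  obtain ⟨⟨d, hd, hdx⟩, d', hd', hd'x⟩ := hs
  have lt_of : ∀ {a b : Node S}, a ∈ x → b ∉ x → a ≤ b := by
    intro a b ha hb
    by_contra h
    exact hb (x.lower (le_of_lt (not_le.1 h)) ha)
  have main : ∀ e, Node.Ext t e → Node.Ext s e → Node.Ext t s := by
    intro e h1 h2 a ha
    rw [← h2 a (ha.trans h), h1 a ha]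
  rcases le_total c d with h1 | h1
  · exact main d (hc.convex hc' h1 (lt_of hdx hc'x)) hd
  · exact main c hc (hd.convex hd' h1 (lt_of hcx hd'x))

theorem exists_height (hS : Stat Sᶜ) (x : Cut S) : ∃ α, ∀ t, x ∈ O t → t.top < α := by
  by_contra hcon
  push Not at hcon
  choose t ht1 ht2 using hcon
  have hsucc := exists_gt'
  choose σ hσ using hsucc
  obtain ⟨δ, hδS, hδ0, hδ⟩ := hS (fun ε => (t (σ ε)).top)
  have h1 : δ ∈ (t δ).carrier := by
    apply (t δ).closed δ hδ0
    intro b hb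
    refine ⟨(t (σ b)).top, ?_, (hσ b).trans_le (ht2 _), hδ b hb⟩
    have h2 : (t (σ b)).top ≤ (t δ).top := (hδ b hb).le.trans (ht2 δ)
    exact (ext_of_mem (ht1 _) (ht1 _) h2).top_mem
  exact hδS ((t δ).sub h1)

/-- deciding countably many open sets -/
theorem decide_all [TopologicalSpace (Cut S)] [OrderTopology (Cut S)] (hS : Stat S)
    (t₀ : Node S) (U : ℕ → Set (Cut S)) (hU : ∀ n, IsOpen (U n)) :
    ∃ t, Node.Ext t₀ t ∧ ∀ n, O t ⊆ U n ∨ Disjoint (O t) (U n) := by
  apply Node.distributive hS fun n => {t | O t ⊆ U n ∨ Disjoint (O t) (U n)}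
  · intro n t
    by_cases h : (O t ∩ U n).Nonempty
    · obtain ⟨s, hs, hs2⟩ := exists_O_subset hS t (U n) (hU n) h
      exact ⟨s, hs, Or.inl hs2⟩
    · refine ⟨t, Node.Ext.refl t, Or.inr ?_⟩
      rwa [Set.not_nonempty_iff_eq_empty, ← Set.disjoint_iff_inter_eq_empty] at h
  · rintro n t s (h | h) hts
    · exact Or.inl ((O_mono hts).trans h)
    · exact Or.inr (h.mono_left (O_mono hts))

theorem exists_inj_real : ∃ r : Om → ℝ, Function.Injective r := by
  have h : #Om ≤ #ℝ := by
    rw [mk_Om, Cardinal.mk_real]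
    exact Cardinal.aleph_one_le_continuum
  obtain ⟨f⟩ := Cardinal.le_def _ _ |>.1 h
  exact ⟨f, f.injective⟩

theorem exists_node (hS : Stat S) : Nonempty (Node S) := by
  obtain ⟨β, hβ, _⟩ := Node.unbounded hS (Classical.arbitrary Om)
  exact ⟨{ carrier := {β}, top := β, top_mem := rfl, le_top := fun a ha => le_of_eq ha,
           sub := fun a ha => by rw [Set.mem_singleton_iff.1 ha]; exact hβ,
           closed := by
             intro a ⟨b, hb⟩ h
             obtain ⟨c, hc, _, hca⟩ := h b hb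
             obtain ⟨c', hc', hbc', _⟩ := h c hca
             rw [Set.mem_singleton_iff] at hc hc'
             rw [hc, hc'] at hbc'
             exact absurd hbc' (lt_irrefl _) }⟩

theorem main (hS : Stat S) (hS' : Stat Sᶜ) [TopologicalSpace (Cut S)] [OrderTopology (Cut S)] :
    ∃ f : Cut S → ℝ, ∀ D : Set (Cut S), Dense D → ¬ Continuous (fun x : D => f x) := by
  obtain ⟨r, hr⟩ := exists_inj_real
  choose α hα using exists_height (S := S) hS'
  refine ⟨fun x => r (α x), fun D hD hcont => ?_⟩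
  have h1 : ∀ q : ℚ, ∃ U : Set (Cut S), IsOpen U ∧ ∀ x ∈ D, (x ∈ U ↔ r (α x) < q) := by
    intro q
    have h2 : IsOpen ((fun x : D => r (α x)) ⁻¹' Set.Iio (q : ℝ)) :=
      isOpen_Iio.preimage hcont
    obtain ⟨U, hU, hU2⟩ := isOpen_induced_iff.1 h2
    refine ⟨U, hU, fun x hx => ?_⟩
    have h3 : (⟨x, hx⟩ : D) ∈ Subtype.val ⁻¹' U ↔
      (⟨x, hx⟩ : D) ∈ (fun x : D => r (α x)) ⁻¹' Set.Iio (q : ℝ) := by rw [hU2]
    exact h3
  choose U hU hU2 using h1
  obtain ⟨e, he⟩ := exists_surjective_nat ℚ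
  obtain ⟨t₀⟩ := exists_node hS
  obtain ⟨t, -, ht⟩ := decide_all hS t₀ (fun n => U (e n)) (fun n => hU _)
  have ht' : ∀ q : ℚ, ∀ x ∈ D ∩ O t, ∀ y ∈ D ∩ O t, r (α x) < q → r (α y) < q := by
    intro q x hx y hy hlt
    obtain ⟨n, rfl⟩ := he q
    have hxU := (hU2 _ x hx.1).2 hlt
    rcases ht n with h | h
    · exact (hU2 _ y hy.1).1 (h hy.2)
    · exact absurd hxU (Set.disjoint_left.1 h hx.2)
  have hconst : ∀ x ∈ D ∩ O t, ∀ y ∈ D ∩ O t, α x = α y := by
    intro x hx y hy
    apply hr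
    rcases lt_trichotomy (r (α x)) (r (α y)) with h | h | h
    · obtain ⟨q, hq1, hq2⟩ := exists_rat_btwn h
      exact absurd (ht' q x hx y hy hq1) (not_lt.2 hq2.le)
    · exact h
    · obtain ⟨q, hq1, hq2⟩ := exists_rat_btwn h
      exact absurd (ht' q y hy x hx hq1) (not_lt.2 hq2.le)
  obtain ⟨x₀, hx₀, hx₀D⟩ := hD.inter_open_nonempty (O t) (isOpen_O t) (O_nonempty hS t)
  obtain ⟨s, hts, hs, -⟩ := Node.exists_ext hS t (α x₀)
  obtain ⟨y, hy, hyD⟩ := hD.inter_open_nonempty (O s) (isOpen_O s) (O_nonempty hS s)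
  have h5 := hα y s hy
  rw [← hconst x₀ ⟨hx₀D, hx₀⟩ y ⟨hyD, O_mono hts hy⟩] at h5
  exact absurd h5 (not_lt.2 hs)

end Cuts

theorem compactLOTS : ∃ (X : Type) (_ : LinearOrder X) (_ : TopologicalSpace X),
    OrderTopology X ∧ CompactSpace X ∧
      ∃ f : X → ℝ, ∀ D : Set X, Dense D → ¬ Continuous (fun x : D => f x) := by
  obtain ⟨S, hS, hS'⟩ := exists_split
  let _ : TopologicalSpace (Cut S) := Preorder.topology (Cut S)
  have _ : OrderTopology (Cut S) := ⟨rfl⟩
  exact ⟨Cut S, inferInstance, inferInstance, inferInstance, inferInstance, main hS hS'⟩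

end Pool.Agent.W637.Blum
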