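import Pool.Agent.W886.RU.Stm0

set_option autoImplicit false

/-! RU-MEAS: from events to almost all sets and all changes -/

namespace Pool.Agent.W637.RU.Meas

open MeasureTheory Pool.Agent.W886.RU

/-- the number of the sets with at most `d` elements -/
theorem card_small (N d : ℕ) :
    ((Finset.range N).powerset.filter (fun D => D.card ≤ d)).card ≤ (N + 1) ^ d := by
  classical
  induction d with
  | zero =>
    have h1 : (Finset.range N).powerset.filter (fun D => D.card ≤ 0) ⊆ {∅} := by
      intro D hD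
      rw [Finset.mem_filter] at hD
      rw [Finset.mem_singleton]
      exact Finset.card_eq_zero.1 (Nat.le_zero.1 hD.2)
    exact (Finset.card_le_card h1).trans (by simp)
  | succ d ih =>
    have h1 : (Finset.range N).powerset.filter (fun D => D.card ≤ d + 1) ⊆
        (Finset.range N).powerset.filter (fun D => D.card ≤ d) ∪
        ((Finset.range N) ×ˢ ((Finset.range N).powerset.filter (fun D => D.card ≤ d))).image
          (fun p => insert p.1 p.2) := by
      intro D hD
      rw [Finset.mem_filter, Finset.mem_powerset] at hD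
      rw [Finset.mem_union]
      by_cases h : D.card ≤ d
      · left
        rw [Finset.mem_filter, Finset.mem_powerset]
        exact ⟨hD.1, h⟩
      · right
        have hne : D.Nonempty := by
          rw [← Finset.card_pos]
          omega
        obtain ⟨a, ha⟩ := hne
        rw [Finset.mem_image]
        refine ⟨(a, D.erase a), ?_, Finset.insert_erase ha⟩
        rw [Finset.mem_product, Finset.mem_filter, Finset.mem_powerset]
        refine ⟨hD.1 ha, (Finset.erase_subset _ _).trans hD.1, ?_⟩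
        have h2 := Finset.card_erase_of_mem ha
        have h3 := hD.2
        show (D.erase a).card ≤ d
        omega
    refine (Finset.card_le_card h1).trans ((Finset.card_union_le _ _).trans ?_)
    have h2 := Finset.card_image_le (s := (Finset.range N) ×ˢ
      ((Finset.range N).powerset.filter (fun D => D.card ≤ d))) (f := fun p => insert p.1 p.2)
    rw [Finset.card_product, Finset.card_range] at h2
    have h3 := Nat.mul_le_mul_left N ih
    rw [pow_succ]
    nlinarith


theorem coin_singleton (b : Bool) : coin {b} = (2⁻¹ : ENNReal) := by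
  cases b <;> simp [coin]

/-- the flip of a string at the numbers in `D` -/
def flp {N : ℕ} (σ : Fin N → Bool) (D : Finset ℕ) (i : Fin N) : Bool :=
  if (i : ℕ) ∈ D then !(σ i) else σ i

theorem meas_cyl {N : ℕ} (τ : Fin N → Bool) :
    randomSet {O : ℕ → Bool | ∀ i : Fin N, O i = τ i} = (2⁻¹ : ENNReal) ^ N := by
  have h1 : {O : ℕ → Bool | ∀ i : Fin N, O i = τ i} =
      Set.pi (Finset.range N : Set ℕ) (fun i => {if h : i < N then τ ⟨i, h⟩ else false}) := by
    ext O
    constructor
    · intro hO i hi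
      have hi' : i < N := Finset.mem_range.1 (Finset.mem_coe.1 hi)
      show O i ∈ ({if h : i < N then τ ⟨i, h⟩ else false} : Set Bool)
      rw [Set.mem_singleton_iff, dif_pos hi']
      exact hO ⟨i, hi'⟩
    · intro hO i
      have h2 : O i ∈ ({if h : (i : ℕ) < N then τ ⟨i, h⟩ else false} : Set Bool) :=
        hO i (Finset.mem_coe.2 (Finset.mem_range.2 i.2))
      rw [Set.mem_singleton_iff, dif_pos i.2] at h2
      exact h2
  rw [h1, randomSet, Measure.infinitePi_pi _ (fun i _ => measurableSet_singleton _)]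
  simp only [coin_singleton]
  rw [Finset.prod_const, Finset.card_range]

theorem null_of (S : Set (ℕ → Bool)) (g : ℕ → ℝ) (n₁ : ℕ)
    (h : ∀ δ : ℝ, 0 < δ → ∃ N : ℕ, n₁ ≤ N ∧ ∃ E : Finset (Fin N → Bool),
      (∀ A ∈ S, (fun i : Fin N => A i) ∈ E) ∧
      (E.card : ℝ) * 2 ^ (-(N : ℝ)) * (N + 1 : ℝ) ^ (max (g N) 0) ≤ δ) :
    randomSet {O | ∃ A ∈ S, ∀ N : ℕ, n₁ ≤ N →
      (((Finset.range N).filter (fun i => A i ≠ O i)).card : ℝ) ≤ g N} = 0 := by
  have h1 : ∀ δ : ℝ, 0 < δ → randomSet {O | ∃ A ∈ S, ∀ N : ℕ, n₁ ≤ N →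
      (((Finset.range N).filter (fun i => A i ≠ O i)).card : ℝ) ≤ g N} ≤ ENNReal.ofReal δ := by
    intro δ hδ
    obtain ⟨N, hN, E, hE, hb⟩ := h δ hδ
    have h2 : {O | ∃ A ∈ S, ∀ N : ℕ, n₁ ≤ N →
        (((Finset.range N).filter (fun i => A i ≠ O i)).card : ℝ) ≤ g N} ⊆
        ⋃ p ∈ ((Finset.range N).powerset.filter (fun D => D.card ≤ ⌊g N⌋₊)) ×ˢ E,
          {O : ℕ → Bool | ∀ i : Fin N, O i = flp p.2 p.1 i} := by
      rintro O ⟨A, hA, hd⟩
      refine Set.mem_iUnion₂.2 ⟨((Finset.range N).filter (fun i => A i ≠ O i),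
        fun i : Fin N => A i), ?_, ?_⟩
      · rw [Finset.mem_product, Finset.mem_filter, Finset.mem_powerset]
        exact ⟨⟨Finset.filter_subset _ _, Nat.le_floor (hd N hN)⟩, hE A hA⟩
      · intro i
        show O i = if (i : ℕ) ∈ (Finset.range N).filter (fun i => A i ≠ O i) then !(A i) else A i
        by_cases hi : A i = O i
        · rw [if_neg]
          · exact hi.symm
          · intro hm
            exact (Finset.mem_filter.1 hm).2 hi
        · rw [if_pos (Finset.mem_filter.2 ⟨Finset.mem_range.2 i.2, hi⟩)]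
          revert hi
          cases A i <;> cases O i <;> simp
    refine (measure_mono h2).trans ((measure_biUnion_finset_le _ _).trans ?_)
    rw [Finset.sum_congr rfl (fun p _ => meas_cyl (flp p.2 p.1)), Finset.sum_const,
      Finset.card_product, nsmul_eq_mul]
    have h3 : (2⁻¹ : ENNReal) ^ N = ENNReal.ofReal (2 ^ (-(N : ℝ))) := by
      rw [Real.rpow_neg (by norm_num), Real.rpow_natCast, ENNReal.ofReal_inv_of_pos (by positivity),
        ENNReal.ofReal_pow (by norm_num), ENNReal.inv_pow]
      norm_num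
    rw [h3, ← ENNReal.ofReal_natCast, ← ENNReal.ofReal_mul (by positivity)]
    apply ENNReal.ofReal_le_ofReal
    refine le_trans ?_ hb
    have h4 : ((((Finset.range N).powerset.filter (fun D => D.card ≤ ⌊g N⌋₊)).card : ℕ) : ℝ) ≤
        (N + 1 : ℝ) ^ (max (g N) 0) := by
      have h5 : ((((Finset.range N).powerset.filter (fun D => D.card ≤ ⌊g N⌋₊)).card : ℕ) : ℝ) ≤
          (N + 1 : ℝ) ^ ⌊g N⌋₊ := by
        exact_mod_cast card_small N ⌊g N⌋₊
      refine h5.trans ?_
      rw [← Real.rpow_natCast]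
      apply Real.rpow_le_rpow_of_exponent_le
      · have : (0 : ℝ) ≤ N := Nat.cast_nonneg N
        linarith
      · rcases le_total 0 (g N) with hg | hg
        · exact (Nat.floor_le hg).trans (le_max_left _ _)
        · rw [Nat.floor_of_nonpos hg]
          simp
    have h6 : (0 : ℝ) ≤ (E.card : ℝ) * 2 ^ (-(N : ℝ)) := by positivity
    push_cast
    calc _ = ((E.card : ℝ) * 2 ^ (-(N : ℝ))) *
          ((((Finset.range N).powerset.filter (fun D => D.card ≤ ⌊g N⌋₊)).card : ℕ) : ℝ) := by ring
      _ ≤ _ := mul_le_mul_of_nonneg_left h4 h6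
  by_contra hne
  have h3 := pos_iff_ne_zero.2 hne
  obtain ⟨δ, hδ0, hδ⟩ := ENNReal.lt_iff_exists_nnreal_btwn.1 h3
  have h4 : (0 : ℝ) < (δ : ℝ) := by exact_mod_cast hδ0
  have h5 := h1 δ h4
  rw [ENNReal.ofReal_coe_nnreal] at h5
  exact absurd (lt_of_lt_of_le hδ h5) (lt_irrefl _)

theorem task : Pool.Agent.W886.RU.S_MEAS := by
  intro S g h
  have h1 := measure_iUnion_null (fun n₁ => null_of S g n₁ (h n₁))
  rw [ae_iff]
  refine measure_mono_null ?_ h1
  intro O hO
  have hO' : ¬ ∀ A : ℕ → Bool, Close g O A → A ∉ S := hO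
  push Not at hO'
  obtain ⟨A, hA, hS⟩ := hO'
  obtain ⟨n₁, hn⟩ := Filter.eventually_atTop.1 hA
  exact Set.mem_iUnion.2 ⟨n₁, A, hS, hn⟩

end Pool.Agent.W637.RU.Meas
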